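import Pool.Agent.Y192.OG.StE
import Pool.Agent.W619.PQ.Tr
import Pool.Agent.Y172.Grow

/-!
Derivations at places over a place of a subfield.
-/

set_option autoImplicit false
set_option linter.unusedSectionVars false
set_option linter.overlappingInstances false

namespace Pool.Agent.Y547.OG

open FF Polynomial Pool.Agent.W603.LV Pool.Agent.W619.PQ Pool.Agent.Y192.OG

section

variable {k F K : Type} [Field k] [CharZero k] [Field F] [Field K] [Algebra k F] [Algebra k K]
    [Algebra F K] [IsScalarTower k F K] [FiniteDimensional F K]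

/-- a derivation is bounded on the elements which are regular at all places over `q` -/
theorem bdd_int (q : Place k F) (P : Place k K) (e : ℕ) (hPq : Over P q e) (D : Derivation ℤ K K)
    (hD : ∀ g : F, q.Reg g → P.Reg (D (algebraMap F K g))) :
    ∃ C : ℕ, ∀ z : K, (∀ (w : Place k K) (e : ℕ), Over w q e → Ge w 0 z) →
      Ge P (-(C : ℤ)) (D z) := by
  classical
  let iA : Algebra q.O K := algO q
  let ik : Algebra k q.O := algk q
  have : IsDiscreteValuationRing q.O := q.isDVR
  have : CharZero F := charZero_of_injective_algebraMap (algebraMap k F).injective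
  have : IsScalarTower q.O F K := IsScalarTower.of_algebraMap_eq fun _ => rfl
  let B := integralClosure q.O K
  have hfin : Module.Finite q.O B := IsIntegralClosure.finite q.O F K B
  obtain ⟨S, hS⟩ := hfin.fg_top
  refine ⟨∑ b ∈ S, (-P.ord (D (b : K))).toNat, fun z hz => ?_⟩
  have hzB : IsIntegral q.O z := isIntegral_of_reg q z hz
  have hmem : (⟨z, hzB⟩ : B) ∈ Submodule.span q.O (S : Set B) := by rw [hS]; trivial
  have key : ∀ b : B, b ∈ Submodule.span q.O (S : Set B) →
      Ge P (-((∑ b ∈ S, (-P.ord (D (b : K))).toNat : ℕ) : ℤ)) (D (b : K)) := by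
    intro b hb
    refine Submodule.span_induction ?_ ?_ ?_ ?_ hb
    · intro x hx
      right
      have h1 := Finset.single_le_sum (f := fun b : B => (-P.ord (D (b : K))).toNat)
        (fun _ _ => Nat.zero_le _) hx
      have h2 : (-P.ord (D (x : K))).toNat ≤ ∑ b ∈ S, (-P.ord (D (b : K))).toNat := h1
      omega
    · left
      simp
    · intro x y _ _ hx hy
      have : D ((x + y : B) : K) = D (x : K) + D (y : K) := by
        rw [← map_add]; rfl
      rw [this]
      exact hx.add hy
    · intro c x _ hx
      have h1 : ((c • x : B) : K) = algebraMap F K (c : F) * (x : K) := rfl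
      rw [h1, Derivation.leibniz, smul_eq_mul, smul_eq_mul]
      have hxr : Ge P 0 (x : K) := P.reg_of_isIntegral (A := q.O) (fun a => hPq.reg.2 a.2) x.2
      have hcr : Ge P 0 (algebraMap F K (c : F)) := hPq.reg.2 c.2
      have hDc : Ge P 0 (D (algebraMap F K (c : F))) := hD _ c.2
      refine Ge.add ?_ ?_
      · simpa using hcr.mul hx
      · have := hxr.mul hDc
        exact Ge.mono (by omega) this
  exact key _ hmem

/-- a derivation is bounded on the valuation ring -/
theorem bdd (q : Place k F) (P : Place k K) (e : ℕ) (hPq : Over P q e) (D : Derivation ℤ K K)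
    (hD : ∀ g : F, q.Reg g → P.Reg (D (algebraMap F K g))) :
    ∃ C : ℕ, ∀ r : K, P.Reg r → Ge P (-(C : ℤ)) (D r) := by
  classical
  have : CharZero F := charZero_of_injective_algebraMap (algebraMap k F).injective
  obtain ⟨C, hC⟩ := bdd_int q P e hPq D hD
  refine ⟨C, fun r hr => ?_⟩
  have hfin := Pool.Agent.Y172.finite_over (K' := K) q
  let S : Finset (Place k K) := hfin.toFinset.erase P
  obtain ⟨s, hs1, hs2⟩ := approx_one S P (Finset.notMem_erase P _) 1
    (1 + ∑ Q ∈ S, (-Q.ord r).toNat : ℕ)
  have hs1' : Ge P 1 (s - 1) := hs1.mono (by rw [Nat.cast_add]; omega)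
  -- `s` is a unit at `P`
  have hs : s ≠ 0 ∧ P.ord s = 0 := by
    rcases hs1' with h | h
    · have : s = 1 := by linear_combination h
      rw [this]
      exact ⟨one_ne_zero, P.ord_one⟩
    · by_cases h0 : s - 1 = 0
      · have : s = 1 := by linear_combination h0
        rw [this]
        exact ⟨one_ne_zero, P.ord_one⟩
      · have := P.ord_add_eq (f := 1) (g := s - 1) one_ne_zero h0 (by rw [P.ord_one]; omega)
        rwa [P.ord_one, add_sub_cancel] at this
  have hsr : P.Reg s := Or.inr hs.2.ge
  have h1 : ∀ (w : Place k K) (e : ℕ), Over w q e → Ge w 0 s := by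
    intro w e' hw
    by_cases hwP : w = P
    · rw [hwP]; exact hsr
    · have hwS : w ∈ S := Finset.mem_erase.2 ⟨hwP, hfin.mem_toFinset.2 ⟨e', hw⟩⟩
      exact (hs2 w hwS).mono (by rw [Nat.cast_add]; omega)
  have h2 : ∀ (w : Place k K) (e : ℕ), Over w q e → Ge w 0 (s * r) := by
    intro w e' hw
    by_cases hwP : w = P
    · rw [hwP]; exact P.reg_mul hsr hr
    · have hwS : w ∈ S := Finset.mem_erase.2 ⟨hwP, hfin.mem_toFinset.2 ⟨e', hw⟩⟩
      have h3 : Ge w (w.ord r) r := Or.inr le_rfl
      have h4 := (hs2 w hwS).mul h3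
      have h5 : (-w.ord r).toNat ≤ ∑ Q ∈ S, (-Q.ord r).toNat :=
        Finset.single_le_sum (f := fun Q : Place k K => (-Q.ord r).toNat)
          (fun _ _ => Nat.zero_le _) hwS
      exact h4.mono (by rw [Nat.cast_add]; omega)
  have h3 := hC _ h1
  have h4 := hC _ h2
  have h5 : D r = (D (s * r) - r * D s) * s⁻¹ := by
    rw [Derivation.leibniz, smul_eq_mul, smul_eq_mul]
    field_simp [hs.1]
    ring
  rw [h5]
  have h6 : Ge P 0 s⁻¹ := Or.inr (by rw [P.ord_inv, hs.2]; simp)
  have h7 : Ge P (-(C : ℤ)) (r * D s) := by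
    have := (show Ge P 0 r from hr).mul h3
    simpa using this
  have := (h4.sub h7).mul h6
  simpa using this

/-- every regular element is a simple zero modulo the place of a polynomial over the valuation
ring of the subfield -/
theorem sep_poly (q : Place k F) (P : Place k K) (e : ℕ) (hPq : Over P q e) (r : K)
    (hr : P.Reg r) :
    ∃ (n : ℕ) (a : ℕ → F), (∀ i, q.Reg (a i)) ∧
      Ge P 1 (∑ i ∈ Finset.range (n + 1), algebraMap F K (a i) * r ^ i) ∧
      ¬ Ge P 1 (∑ i ∈ Finset.range (n + 1), algebraMap F K (a i) * ((i : K) * r ^ (i - 1))) := by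
  classical
  have : CharZero F := charZero_of_injective_algebraMap (algebraMap k F).injective
  let Q : ℕ → Prop := fun n => ∃ a : ℕ → F, (∀ i, q.Reg (a i)) ∧ a n = 1 ∧
    Ge P 1 (∑ i ∈ Finset.range (n + 1), algebraMap F K (a i) * r ^ i)
  -- existence
  have hex : ∃ n, Q n := by
    have hint : IsIntegral F r := IsIntegral.of_finite F r
    let g := minpoly F r
    have hg0 : g ≠ 0 := minpoly.ne_zero hint
    have hgr : aeval r g = 0 := minpoly.aeval F r
    -- minimal order of the coefficients
    obtain ⟨j0, hj0, hmin⟩ := g.support.exists_min_image (fun i => q.ord (g.coeff i))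
      (support_nonempty.2 hg0)
    have hne : (g.support.filter fun i => q.ord (g.coeff i) = q.ord (g.coeff j0)).Nonempty :=
      ⟨j0, by simp [mem_support_iff.1 hj0]⟩
    obtain ⟨j, hj, hmax⟩ := Finset.exists_max_image _ (fun i => i) hne
    rw [Finset.mem_filter] at hj
    have hcj : g.coeff j ≠ 0 := mem_support_iff.1 hj.1
    refine ⟨j, fun i => g.coeff i / g.coeff j, ?_, div_self hcj, ?_⟩
    · intro i
      by_cases hi : g.coeff i = 0
      · left; simp [hi]
      · right
        rw [q.ord_div hi hcj, hj.2]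
        have := hmin i (mem_support_iff.2 hi)
        omega
    · -- the rest
      have h1 : ∑ i ∈ Finset.range (g.natDegree + 1 + j + 1), algebraMap F K (g.coeff i / g.coeff j) * r ^ i = 0 := by
        have h2 : aeval r g = ∑ i ∈ Finset.range (g.natDegree + 1 + j + 1), algebraMap F K (g.coeff i) * r ^ i := by
          rw [aeval_eq_sum_range' (n := g.natDegree + 1 + j + 1) (by omega)]
          exact Finset.sum_congr rfl fun i _ => by rw [Algebra.smul_def]
        rw [hgr] at h2
        have h3 : ∑ i ∈ Finset.range (g.natDegree + 1 + j + 1), algebraMap F K (g.coeff i / g.coeff j) * r ^ i =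
            algebraMap F K (g.coeff j)⁻¹ * ∑ i ∈ Finset.range (g.natDegree + 1 + j + 1), algebraMap F K (g.coeff i) * r ^ i := by
          rw [Finset.mul_sum]
          refine Finset.sum_congr rfl fun i _ => ?_
          rw [div_eq_mul_inv, map_mul]
          ring
        rw [h3, ← h2, mul_zero]
      rw [show g.natDegree + 1 + j + 1 = (j + 1) + (g.natDegree + 1) by ring, Finset.sum_range_add] at h1
      have h4 : ∑ i ∈ Finset.range (j + 1), algebraMap F K (g.coeff i / g.coeff j) * r ^ i =
          - ∑ i ∈ Finset.range (g.natDegree + 1), algebraMap F K (g.coeff (j + 1 + i) / g.coeff j) * r ^ (j + 1 + i) := by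
        linear_combination h1
      rw [h4]
      refine Ge.neg (Ge.sum _ _ fun i _ => ?_)
      have h5 : Ge P 1 (algebraMap F K (g.coeff (j + 1 + i) / g.coeff j)) := by
        by_cases hi : g.coeff (j + 1 + i) = 0
        · left; simp [hi]
        · right
          rw [hPq.2, q.ord_div hi hcj]
          have h6 := hmin _ (mem_support_iff.2 hi)
          have h7 : q.ord (g.coeff (j + 1 + i)) ≠ q.ord (g.coeff j0) := by
            intro h8
            have := hmax (j + 1 + i) (Finset.mem_filter.2 ⟨mem_support_iff.2 hi, h8⟩)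
            omega
          have h9 : (1 : ℤ) ≤ q.ord (g.coeff (j + 1 + i)) - q.ord (g.coeff j) := by
            rw [hj.2]; omega
          have h10 : (1 : ℤ) ≤ e := by exact_mod_cast hPq.1
          nlinarith
      have h6 : Ge P 0 (r ^ (j + 1 + i)) := by
        have := (show Ge P 0 r from hr).pow (j + 1 + i)
        simpa using this
      simpa using h5.mul h6
  obtain ⟨a, ha, han, hag⟩ := Nat.find_spec hex
  set n := Nat.find hex with hn
  refine ⟨n, a, ha, hag, fun hcon => ?_⟩
  have hn0 : n ≠ 0 := by
    intro h0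
    rw [h0] at han hag
    simp only [zero_add, Finset.range_one, Finset.sum_singleton, pow_zero, mul_one, han, map_one] at hag
    rcases hag with h | h
    · exact one_ne_zero h
    · rw [P.ord_one] at h; omega
  have hlt : n - 1 < Nat.find hex := by omega
  refine Nat.find_min hex hlt ⟨fun i => ((i + 1 : ℕ) : F) * a (i + 1) / n, ?_, ?_, ?_⟩
  · intro i
    have h1 : Ge q 0 (((i + 1 : ℕ) : F)) := Ge.natCast _
    have h2 : Ge q 0 ((n : F)⁻¹) := by
      have h3 : ((n : F))⁻¹ = algebraMap k F ((n : k)⁻¹) := by simp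
      rw [h3]
      exact Ge.const _
    have h3 := (h1.mul (show Ge q 0 (a (i + 1)) from ha _)).mul h2
    simp only [add_zero] at h3
    change q.Reg (((i + 1 : ℕ) : F) * a (i + 1) / n)
    rw [div_eq_mul_inv]
    exact h3
  · have h1 : n - 1 + 1 = n := by omega
    simp only [h1, han, mul_one]
    exact div_self (by exact_mod_cast hn0)
  · have h1 : n - 1 + 1 = n := by omega
    rw [h1]
    have h2 : ∑ i ∈ Finset.range n, algebraMap F K (((i + 1 : ℕ) : F) * a (i + 1) / n) * r ^ i =
        algebraMap F K ((n : F)⁻¹) *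
          ∑ i ∈ Finset.range (n + 1), algebraMap F K (a i) * ((i : K) * r ^ (i - 1)) := by
      rw [Finset.sum_range_succ', mul_add, Finset.mul_sum]
      simp only [Nat.cast_zero, zero_mul, mul_zero, add_zero, Nat.add_sub_cancel]
      refine Finset.sum_congr rfl fun i _ => ?_
      simp only [div_eq_mul_inv, map_mul, map_natCast]
      ring
    rw [h2]
    have h3 : Ge P 0 (algebraMap F K ((n : F)⁻¹)) := by
      have h3 : algebraMap F K (((n : F))⁻¹) = algebraMap k K ((n : k)⁻¹) := by simp
      rw [h3]
      exact Ge.const _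
    simpa using h3.mul hcon

/-- one step -/
theorem step (q : Place k F) (P : Place k K) (e : ℕ) (hPq : Over P q e) (D : Derivation ℤ K K)
    (hD : ∀ g : F, q.Reg g → P.Reg (D (algebraMap F K g))) (M : ℤ) (hM : M ≤ 0) (π : K)
    (hπ0 : π ≠ 0) (hπ : P.ord π = 1) (hs : ∀ s, P.Reg s → Ge P M (D (π * s))) :
    ∀ r, P.Reg r → Ge P M (D r) := by
  intro r hr
  obtain ⟨n, a, ha, h1, h2⟩ := sep_poly q P e hPq r hr
  set m := ∑ i ∈ Finset.range (n + 1), algebraMap F K (a i) * r ^ i with hm
  set m' := ∑ i ∈ Finset.range (n + 1), algebraMap F K (a i) * ((i : K) * r ^ (i - 1)) with hm'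
  have h3 : Ge P M (D m) := by
    have h4 : m = π * (m / π) := by field_simp
    rw [h4]
    apply hs
    by_cases h5 : m = 0
    · left; simp [h5]
    · right
      rw [P.ord_div h5 hπ0, hπ]
      have := h1.resolve_left h5
      omega
  have h4 : D m = ∑ i ∈ Finset.range (n + 1), r ^ i * D (algebraMap F K (a i)) + m' * D r := by
    rw [hm, hm', map_sum, Finset.sum_mul, ← Finset.sum_add_distrib]
    refine Finset.sum_congr rfl fun i _ => ?_
    rw [Derivation.leibniz, Derivation.leibniz_pow, smul_eq_mul, smul_eq_mul, smul_eq_mul]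
    simp only [nsmul_eq_mul]
    ring
  have h5 : Ge P M (m' * D r) := by
    have h6 : m' * D r = D m - ∑ i ∈ Finset.range (n + 1), r ^ i * D (algebraMap F K (a i)) := by
      rw [h4]; ring
    rw [h6]
    refine h3.sub (Ge.sum _ _ fun i _ => ?_)
    have h7 : Ge P 0 (r ^ i) := by
      have := (show Ge P 0 r from hr).pow i
      simpa using this
    have h8 := h7.mul (show Ge P 0 (D (algebraMap F K (a i))) from hD _ (ha i))
    exact h8.mono (by omega)
  have hm0 : m' ≠ 0 := fun h => h2 (Or.inl h)
  have hmo : P.ord m' < 1 := by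
    by_contra h
    exact h2 (Or.inr (by omega))
  have h6 : D r = m'⁻¹ * (m' * D r) := by field_simp
  rw [h6]
  have h7 : Ge P 0 (m'⁻¹) := Or.inr (by rw [P.ord_inv]; omega)
  simpa using h7.mul h5

theorem ld_mul (D : Derivation ℤ K K) {x y : K} (hx : x ≠ 0) (hy : y ≠ 0) :
    D (x * y) / (x * y) = D x / x + D y / y := by
  rw [Derivation.leibniz, smul_eq_mul, smul_eq_mul]
  field_simp
  ring

theorem ld_pow (D : Derivation ℤ K K) {x : K} (hx : x ≠ 0) (n : ℕ) :
    D (x ^ n) / x ^ n = n * (D x / x) := by
  induction n with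
  | zero => simp
  | succ n ih =>
    rw [pow_succ, ld_mul D (pow_ne_zero _ hx) hx, ih]
    push_cast
    ring

theorem ld_inv (D : Derivation ℤ K K) {x : K} (hx : x ≠ 0) :
    D (x⁻¹) / x⁻¹ = - (D x / x) := by
  have h := ld_mul D hx (inv_ne_zero hx)
  rw [mul_inv_cancel₀ hx] at h
  simp only [Derivation.map_one_eq_zero, zero_div] at h
  linear_combination -h

theorem ld_zpow (D : Derivation ℤ K K) {x : K} (hx : x ≠ 0) (n : ℤ) :
    D (x ^ n) / x ^ n = n * (D x / x) := by
  cases n with
  | ofNat n => simpa using ld_pow D hx n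
  | negSucc n =>
    rw [zpow_negSucc, ld_inv D (pow_ne_zero _ hx), ld_pow D hx]
    simp only [Int.negSucc_eq]
    push_cast
    ring

/-- logarithmic derivatives with a bound for units -/
theorem ld_bound (q : Place k F) (P : Place k K) (e : ℕ) (hPq : Over P q e) (D : Derivation ℤ K K)
    (hD : ∀ g : F, P.Reg (D (algebraMap F K g) / algebraMap F K g)) (M : ℤ) (hM : M ≤ 0)
    (hu : ∀ r, P.Reg r → Ge P M (D r)) (h : K) : Ge P M (D h / h) := by
  by_cases h0 : h = 0
  · left; simp [h0]
  have : CharZero K := charZero_of_injective_algebraMap (algebraMap k K).injective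
  obtain ⟨t, ht0, ht⟩ := q.surj
  have htK : algebraMap F K t ≠ 0 := by simpa using ht0
  have he : e ≠ 0 := by have := hPq.1; omega
  set n := P.ord h with hn
  set u := h ^ e * (algebraMap F K t ^ n)⁻¹ with hu'
  have htn : algebraMap F K t ^ n ≠ 0 := zpow_ne_zero _ htK
  have hu0 : u ≠ 0 := mul_ne_zero (pow_ne_zero _ h0) (inv_ne_zero htn)
  have huo : P.ord u = 0 := by
    rw [hu', P.ord_mul (pow_ne_zero _ h0) (inv_ne_zero htn), P.ord_inv, P.ord_pow, P.ord_zpow,
      hPq.2, ht]
    ring
  have h1 : h ^ e = u * algebraMap F K t ^ n := by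
    rw [hu', mul_assoc, inv_mul_cancel₀ htn, mul_one]
  have h2 : (e : K) * (D h / h) = D u / u + n * (D (algebraMap F K t) / algebraMap F K t) := by
    rw [← ld_pow D h0, h1, ld_mul D hu0 htn, ld_zpow D htK]
  have h3 : Ge P M (D u / u) := by
    have h4 := hu u (Or.inr huo.ge)
    have h5 : Ge P 0 u⁻¹ := Or.inr (by rw [P.ord_inv, huo]; simp)
    simpa [div_eq_mul_inv] using h4.mul h5
  have h4 : Ge P 0 ((n : K) * (D (algebraMap F K t) / algebraMap F K t)) := by
    have := (Ge.intCast (P := P) n).mul (show Ge P 0 _ from hD t)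
    simpa using this
  have h5 : Ge P M ((e : K) * (D h / h)) := by
    rw [h2]
    exact h3.add (h4.mono hM)
  have h6 : D h / h = algebraMap k K ((e : k)⁻¹) * ((e : K) * (D h / h)) := by
    have : (e : K) ≠ 0 := by exact_mod_cast he
    simp only [map_inv₀, map_natCast]
    field_simp
  rw [h6]
  simpa using (Ge.const (P := P) ((e : k)⁻¹)).mul h5

theorem reg_of_log (P : Place k K) (q : Place k F) (e : ℕ) (hPq : Over P q e)
    (D : Derivation ℤ K K) (hD : ∀ g : F, P.Reg (D (algebraMap F K g) / algebraMap F K g))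
    (g : F) (hg : q.Reg g) : P.Reg (D (algebraMap F K g)) := by
  by_cases h0 : g = 0
  · left; simp [h0]
  have h1 : algebraMap F K g ≠ 0 := by simpa using h0
  have h2 : D (algebraMap F K g) = D (algebraMap F K g) / algebraMap F K g * algebraMap F K g := by
    field_simp
  rw [h2]
  exact P.reg_mul (hD g) (hPq.reg.2 hg)

theorem part_one (q : Place k F) (P : Place k K) (e : ℕ) (hPq : Over P q e) (D : Derivation ℤ K K)
    (hD : ∀ g : F, P.Reg (D (algebraMap F K g) / algebraMap F K g)) (h : K) : P.Reg (D h / h) := by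
  have hD' := reg_of_log P q e hPq D hD
  obtain ⟨C, hC⟩ := bdd q P e hPq D hD'
  have key : ∀ C : ℕ, (∀ r : K, P.Reg r → Ge P (-(C : ℤ)) (D r)) →
      ∀ r : K, P.Reg r → Ge P 0 (D r) := by
    intro C
    induction C with
    | zero => intro h; simpa using h
    | succ C ih =>
      intro h1
      apply ih
      obtain ⟨π, hπ0, hπ⟩ := P.surj
      refine step q P e hPq D hD' _ (by omega) π hπ0 hπ fun s hs => ?_
      rw [Derivation.leibniz, smul_eq_mul, smul_eq_mul]
      have h2 : Ge P (-(C : ℤ)) (D π) := by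
        have h3 := ld_bound q P e hPq D hD (-((C + 1 : ℕ) : ℤ)) (by omega) h1 π
        have h4 : D π = (D π / π) * π := by field_simp
        rw [h4]
        exact (h3.mul (show Ge P 1 π from Or.inr hπ.ge)).mono (by push_cast; omega)
      refine Ge.add ?_ ?_
      · exact ((show Ge P 1 π from Or.inr hπ.ge).mul (h1 s hs)).mono (by push_cast; omega)
      · exact ((show Ge P 0 s from hs).mul h2).mono (by omega)
  exact ld_bound q P e hPq D hD 0 le_rfl (key C hC) h

theorem part_two (q : Place k F) (P : Place k K) (hPq : Over P q 1) (D : Derivation ℤ K K)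
    (hD : ∀ g : F, q.Reg g → P.Reg (D (algebraMap F K g))) (h : K) (hh : P.Reg h) :
    P.Reg (D h) := by
  obtain ⟨C, hC⟩ := bdd q P 1 hPq D hD
  have key : ∀ C : ℕ, (∀ r : K, P.Reg r → Ge P (-(C : ℤ)) (D r)) →
      ∀ r : K, P.Reg r → Ge P 0 (D r) := by
    intro C
    induction C with
    | zero => intro h; simpa using h
    | succ C ih =>
      intro h1
      apply ih
      obtain ⟨t, ht0, ht⟩ := q.surj
      have htK : algebraMap F K t ≠ 0 := by simpa using ht0
      have hπ : P.ord (algebraMap F K t) = 1 := by rw [hPq.2, ht]; simp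
      refine step q P 1 hPq D hD _ (by omega) (algebraMap F K t) htK hπ fun s hs => ?_
      rw [Derivation.leibniz, smul_eq_mul, smul_eq_mul]
      refine Ge.add ?_ ?_
      · exact ((show Ge P 1 (algebraMap F K t) from Or.inr hπ.ge).mul (h1 s hs)).mono
          (by push_cast; omega)
      · exact ((show Ge P 0 s from hs).mul
          (show Ge P 0 _ from hD t (Or.inr (by omega)))).mono (by omega)
  exact key C hC h hh

end

theorem t_der : St_der := by
  intro k F K _ _ _ _ _ _ _ _ _ q P e hPq D
  refine ⟨fun hD h => part_one q P e hPq D hD h, fun he hD h hh => ?_⟩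
  subst he
  exact part_two q P hPq D hD h hh

end Pool.Agent.Y547.OG
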